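import Pool.Agent.Lib.helper77.Raw

/-! Passage between the codes of the prelude and the typed codes. -/

namespace Pool.Agent.P.MP_b0c4db_lc

open Pool.Agent.Lib.helper21 Pool.Agent.Lib.helper77 N487b59b3 Enc

theorem dec_encodeNat (n : ℕ) : Computability.encodeNat n = n.bits := by
  have h : ∀ p : PosNum, Computability.encodePosNum p = (p : ℕ).bits := by
    intro p
    induction p with
    | one => rfl
    | bit0 p ih =>
      rw [Computability.encodePosNum, ih, PosNum.cast_bit0, ← two_mul,
        Nat.bit0_bits _ (PosNum.cast_pos p).ne']
    | bit1 p ih =>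
      rw [Computability.encodePosNum, ih, PosNum.cast_bit1, ← two_mul, Nat.bit1_bits]
  unfold Computability.encodeNat
  conv_rhs => rw [← Num.to_of_nat n]
  cases (n : Num) with
  | zero => simp [Computability.encodeNum]
  | pos p => exact h p

theorem dec_int (z : ℤ) : bitEncode z = delimit z.toNat.bits ++ (-z).toNat.bits := by
  rw [← dec_encodeNat, ← dec_encodeNat]; rfl

section

variable {α δ β γ : Type} [Enc α] [Enc δ] [N487b59b3 β] [N487b59b3 γ]

theorem dec_bits {f : α → ℤ} (hf : PT f) : PT fun a => (f a).toNat.bits := by
  have hb : PT fun z : ℤ => z.natAbs.bits :=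
    PT.ofRaw.comp (g := fun z : ℤ => Raw.mk z.natAbs.bits) (PT.absB PT.id)
  refine ((hf.intLt (PT.const 0)).cond (PT.const []) (hb.comp hf)).of_eq fun a => ?_
  by_cases h : f a < 0
  · simp [h, Int.toNat_eq_zero.2 h.le]
  · simp only [h, decide_false, cond_false]
    congr 1
    omega

theorem enc_del {f : α → List Bool} (hf : PT f) : PT fun a => delimit (f a) :=
  PT.of_eq (f := fun a => ((f a).flatMap fun b => [true, b]) ++ [false]) (by fun_prop)
    fun _ => (delimit_eq _).symm

theorem enc_int {f : α → ℤ} (hf : PT f) : PT fun a => bitEncode (f a) :=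
  ((enc_del (dec_bits hf)).append (dec_bits hf.intNeg)).of_eq fun _ => (dec_int _).symm

theorem enc_nat {f : α → ℕ} (hf : PT f) : PT fun a => bitEncode (f a) :=
  (dec_bits hf.natCast).of_eq fun a => (dec_encodeNat (f a)).symm

theorem enc_pair {f : α → β} {g : α → γ} (hf : PT fun a => bitEncode (f a))
    (hg : PT fun a => bitEncode (g a)) : PT fun a => bitEncode (f a, g a) :=
  (enc_del hf).append hg

theorem enc_list {δ : Type} [Enc δ] [N487b59b3 δ] {l : α → List δ} (hl : PT l)
    (hF : PT fun x : δ => bitEncode x) : PT fun a => bitEncode (l a) :=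
  (hl.flatMap (g := fun _ x => delimit (bitEncode x)) (enc_del (hF.comp PT.id.snd))).of_eq
    fun a => by
    show _ = (((l a).map bitEncode).map delimit).flatten
    rw [List.map_map, List.flatMap_def]
    rfl

end

/-- the reduction as a machine on the codes of the prelude -/
theorem polyTime_out {f : List Bool → List (List ℤ) × List ℤ × ℕ} (h : PT f) :
    N68a2faeb.IsPolyTime f :=
  toPrelude (enc_pair (enc_list h.fst (enc_list PT.id (enc_int PT.id)))
    (enc_pair (enc_list h.snd.fst (enc_int PT.id)) (enc_nat h.snd.snd)))

/-- one step of the reader of delimited blocks -/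
def bstp (s : Bool × List Bool × List (List Bool)) (b : Bool) : Bool × List Bool × List (List Bool) :=
  cond s.1 (false, b :: s.2.1, s.2.2) (cond b (true, s.2) (false, [], s.2.1 :: s.2.2))

theorem bstp_del (w c r : List Bool) (acc : List (List Bool)) :
    (delimit w ++ r).foldl bstp (false, c, acc) = r.foldl bstp (false, [], (w.reverse ++ c) :: acc) := by
  induction w generalizing c with
  | nil => rfl
  | cons b w ih => simpa [delimit, bstp] using ih (b :: c)

/-- the delimited blocks of a word -/
def blks (y : List Bool) : List (List Bool) :=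
  ((y.foldl bstp (false, [], [])).2.2.map List.reverse).reverse

theorem blks_eq (l : List (List Bool)) : blks (l.map delimit).flatten = l := by
  have h : ∀ acc, (l.map delimit).flatten.foldl bstp (false, [], acc) =
      (false, [], (l.map List.reverse).reverse ++ acc) := by
    induction l with
    | nil => intro acc; rfl
    | cons w l ih => intro acc; rw [List.map_cons, List.flatten_cons, bstp_del, ih]; simp
  simp [blks, h]

theorem PT_blks : PT blks := by
  have h : PT fun y : List Bool => y.foldl bstp (false, [], []) :=
    PT.foldl_add (f := fun _ => bstp) (by unfold bstp; fun_prop) PT.id (PT.const _) (fun _ => 8)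
      (Bd.const _ _) fun _ s x => by
        obtain ⟨a, c, acc⟩ := s
        cases a <;> cases x <;> simp [bstp] <;> omega
  unfold blks
  fun_prop

theorem valB_bits (n : ℕ) : valB n.bits.reverse 0 = n := by
  induction n using Nat.binaryRec' with
  | zero => rfl
  | bit b n h ih =>
    rw [Nat.bits_append_bit n b h, List.reverse_cons, valB, List.foldl_append]
    exact congrArg (Nat.bit b) ih

/-- value of a list of binary digits -/
def dval (w : List Bool) : ℤ := valB w.reverse 0

theorem PT_dval : PT dval :=
  (PT.valB (f := fun _ => Bn.mk 0) PT.id.reverse (PT.const _)).toZ.of_eq fun _ => rfl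

/-- the reader of integers -/
def dint (y : List Bool) : ℤ :=
  dval ((blks y).headD []) - dval (y.drop (2 * ((blks y).headD []).length + 1))

theorem PT_dint : PT dint := by
  have h1 := PT_blks
  have h2 := PT_dval
  unfold dint
  fun_prop

theorem blks_head (w r : List Bool) : (blks (delimit w ++ r)).headD [] = w := by
  have h : ∀ (r : List Bool) (s : Bool × List Bool × List (List Bool)),
      ∃ l, (r.foldl bstp s).2.2 = l ++ s.2.2 := by
    intro r
    induction r with
    | nil => exact fun s => ⟨[], rfl⟩
    | cons b r ih =>
      rintro ⟨a, c, acc⟩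
      obtain ⟨l, hl⟩ := ih (bstp (a, c, acc) b)
      rw [List.foldl_cons, hl]
      cases a <;> cases b
      · exact ⟨l ++ [c], by simp [bstp]⟩
      all_goals exact ⟨l, rfl⟩
  obtain ⟨l, hl⟩ := h r (false, [], [w.reverse ++ []])
  rw [blks, bstp_del, hl]
  simp

theorem dint_eq (z : ℤ) : dint (bitEncode z) = z := by
  rw [dec_int, dint, blks_head, ← length_delimit, List.drop_left, dval, dval, valB_bits, valB_bits]
  omega

/-- the decoder as a machine on the codes of the prelude -/
theorem polyTime_in {g : List Bool × List ℤ → Bool} (h : PT g) : N68a2faeb.IsPolyTime g := by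
  have h1 := PT_blks
  have h2 := PT_dint
  let d : List Bool → List Bool × List ℤ := fun y =>
    ((blks ((blks y).headD [])).map fun w => w.headD false,
      (blks (y.drop (2 * ((blks y).headD []).length + 1))).map dint)
  have h3 : PT d := by fun_prop
  have h4 : ∀ p, d (bitEncode p) = p := by
    rintro ⟨x, z⟩
    have e : bitEncode (x, z) = delimit (bitEncode x) ++ bitEncode z := rfl
    have e1 : blks (bitEncode x) = x.map bitEncode := blks_eq _
    have e2 : blks (bitEncode z) = z.map bitEncode := blks_eq _
    simp only [d]
    rw [e, blks_head, ← length_delimit, List.drop_left, e1, e2, List.map_map, List.map_map]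
    exact Prod.ext (List.map_id'' (fun _ => rfl) _) (List.map_id'' dint_eq _)
  have h5 : PT fun y : Raw => g (d y.w) := h.comp (h3.comp PT.ofRaw)
  refine Rl.toTM2 ((Rl.reindex h5 fun p => Raw.mk (bitEncode p)).congr fun p => ?_)
  show enc (g (d (bitEncode p))) = _
  rw [h4]
  rfl

end Pool.Agent.P.MP_b0c4db_lc
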