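import Pool.Prelude.Def_H_3587d628

/-! Definitions used in the statement. A lattice is given by the list `B` of its basis vectors, a
target by the list `t` of its coordinates, a lattice vector by the list `z` of its coefficients. -/

namespace Pool.Agent.P.MP_b0c4db_lc

open Finset

/-- Coordinate `i` of the basis vector number `j`. -/
def ent (B : List (List ℤ)) (j i : ℕ) : ℤ := (B.getD j []).getD i 0

/-- The vectors in `B` have as many coordinates as `t` and are linearly independent. -/
def IsBasis (B : List (List ℤ)) (t : List ℤ) : Prop :=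
  (∀ b ∈ B, b.length = t.length) ∧
    LinearIndependent ℝ fun (j : Fin B.length) (i : Fin t.length) => (ent B j i : ℝ)

/-- The Euclidean distance from the lattice vector with coefficients `z` to the target `t`. -/
noncomputable def dst (B : List (List ℤ)) (t z : List ℤ) : ℝ :=
  √(∑ i ∈ range t.length,
    ((∑ j ∈ range B.length, z.getD j 0 * ent B j i - t.getD i 0 : ℤ) : ℝ) ^ 2)

/-- `z` is a correct answer to the closest vector problem with factor `γ`. -/
def Approx (γ : ℝ) (B : List (List ℤ)) (t z : List ℤ) : Prop := ∀ y, dst B t z ≤ γ * dst B t y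

/-- Every language in `NP` reduces to the closest vector problem with factor `γ` of the rank: `f`
is a many-one reduction to the gap problem, and `g` reads the answer off any approximate
solution. -/
def Hard (γ : ℕ → ℝ) : Prop :=
  ∀ L ∈ N68a2faeb.NP, ∃ (f : List Bool → List (List ℤ) × List ℤ × ℕ)
    (g : List Bool × List ℤ → Bool), N68a2faeb.IsPolyTime f ∧ N68a2faeb.IsPolyTime g ∧ ∀ x,
      IsBasis (f x).1 (f x).2.1 ∧ 0 < (f x).2.2 ∧
      (L x = true → ∃ z, dst (f x).1 (f x).2.1 z ≤ (f x).2.2) ∧
      (L x = false → ∀ z, γ (f x).1.length * (f x).2.2 < dst (f x).1 (f x).2.1 z) ∧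
      ∀ z, Approx (γ (f x).1.length) (f x).1 (f x).2.1 z → g (x, z) = L x

end Pool.Agent.P.MP_b0c4db_lc
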