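import Pool.Agent.P.MP_b0c4db_lc.Stm

/-! A system of congruences is embedded into a closest vector instance. -/

namespace Pool.Agent.P.MP_b0c4db_lc

open Finset

/-- the squared distance -/
def d2 (B : List (List ℤ)) (t z : List ℤ) : ℤ :=
  ∑ i ∈ range t.length, (∑ j ∈ range B.length, z.getD j 0 * ent B j i - t.getD i 0) ^ 2

theorem dst_eq (B : List (List ℤ)) (t z : List ℤ) : dst B t z = √(d2 B t z : ℝ) := by
  unfold dst d2
  push_cast
  rfl

/-- coordinate `i` of the basis vector `s` -/
def be (N : ℕ) (W p : ℤ) (H : ℕ → ℕ → ℤ) (s i : ℕ) : ℤ :=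
  cond (decide (i < N)) (ind (decide (i = s)))
    (cond (decide (s < N)) (W * H (i - N) s) (ind (decide (i = s)) * (W * p)))

/-- the basis -/
def bs (N K : ℕ) (W p : ℤ) (H : ℕ → ℕ → ℤ) : List (List ℤ) :=
  (List.range (N + K)).map fun s => (List.range (N + K)).map fun i => be N W p H s i

/-- the target -/
def tg (N K : ℕ) (W : ℤ) (h : ℕ → ℤ) : List ℤ :=
  (List.range (N + K)).map fun i => cond (decide (i < N)) 0 (W * h (i - N))

variable {N K : ℕ} {W p : ℤ} {H : ℕ → ℕ → ℤ} {h : ℕ → ℤ}

theorem bs_length : (bs N K W p H).length = N + K := by simp [bs]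

theorem tg_length : (tg N K W h).length = N + K := by simp [tg]

theorem getD_map_range {α : Type} (f : ℕ → α) (d : α) {n i : ℕ} (hi : i < n) :
    ((List.range n).map f).getD i d = f i := by
  simp [List.getD_eq_getElem?_getD, hi]

theorem ent_bs {s i : ℕ} (hs : s < N + K) (hi : i < N + K) :
    ent (bs N K W p H) s i = be N W p H s i := by
  unfold ent bs
  rw [getD_map_range _ _ hs, getD_map_range _ _ hi]

theorem be_low {R : Type} [CommRing R] (G : ℕ → R) {i : ℕ} (hi : i < N) :
    ∑ s ∈ range (N + K), G s * (be N W p H s i : R) = G i := by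
  rw [sum_eq_single i]
  · simp [be, hi, ind]
  · intro s _ hs
    simp [be, hi, ind, hs.symm]
  · intro h
    exact absurd (mem_range.2 (by omega)) h

theorem be_high {R : Type} [CommRing R] (G : ℕ → R) {c : ℕ} (hc : c < K) :
    ∑ s ∈ range (N + K), G s * (be N W p H s (N + c) : R) =
      W * (∑ s ∈ range N, H c s * G s + G (N + c) * p) := by
  rw [sum_range_add, mul_add, mul_sum]
  congr 1
  · refine sum_congr rfl fun s hs => ?_
    simp [be, mem_range.1 hs]
    ring
  · rw [sum_eq_single c]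
    · simp [be, ind]
      ring
    · intro s _ hs
      simp [be, ind, hs.symm]
    · intro h
      exact absurd (mem_range.2 hc) h

theorem isBasis_bs (hW : W ≠ 0) (hp : p ≠ 0) : IsBasis (bs N K W p H) (tg N K W h) := by
  refine ⟨fun b hb => ?_, Fintype.linearIndependent_iff.2 fun g hg => ?_⟩
  · obtain ⟨s, _, rfl⟩ := List.mem_map.1 hb
    simp [tg]
  · let G : ℕ → ℝ := fun s => if hs : s < (bs N K W p H).length then g ⟨s, hs⟩ else 0
    have h1 : ∀ i < N + K, ∑ s ∈ range (N + K), G s * (be N W p H s i : ℝ) = 0 := by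
      intro i hi
      have := congrFun hg ⟨i, by rwa [tg_length]⟩
      simp only [Finset.sum_apply, Pi.smul_apply, smul_eq_mul, Pi.zero_apply] at this
      rw [← this, ← bs_length (W := W) (p := p) (H := H), sum_range]
      refine sum_congr rfl fun s _ => ?_
      rw [ent_bs (s.2.trans_eq bs_length) hi]
      simp [G]
    have h2 : ∀ i < N, G i = 0 := fun i hi => by
      rw [← be_low (K := K) (W := W) (p := p) (H := H) G hi, h1 i (by omega)]
    have h3 : ∀ i < N + K, G i = 0 := by
      intro i hi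
      by_cases hN : i < N
      · exact h2 i hN
      · obtain ⟨c, rfl⟩ := Nat.exists_eq_add_of_le (not_lt.1 hN)
        have := h1 _ hi
        rw [be_high G (by omega), sum_eq_zero fun s hs => by rw [h2 s (mem_range.1 hs), mul_zero]]
          at this
        simpa [hW, hp] using this
    intro s
    simpa [G] using h3 s (s.2.trans_eq bs_length)

theorem d2_bs (z : List ℤ) : d2 (bs N K W p H) (tg N K W h) z = ∑ s ∈ range N, z.getD s 0 ^ 2 +
    ∑ c ∈ range K, (W * (∑ s ∈ range N, H c s * z.getD s 0 - h c + z.getD (N + c) 0 * p)) ^ 2 := by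
  unfold d2
  rw [bs_length, tg_length, sum_range_add]
  congr 1
  · refine sum_congr rfl fun i hi => ?_
    have hi := mem_range.1 hi
    have := be_low (K := K) (W := W) (p := p) (H := H) (fun s => z.getD s 0) hi
    simp only [Int.cast_id] at this
    rw [sum_congr rfl fun s hs => by rw [ent_bs (mem_range.1 hs) (by omega)], this, tg,
      getD_map_range _ _ (by omega)]
    simp [hi]
  · refine sum_congr rfl fun c hc => ?_
    have hc := mem_range.1 hc
    have := be_high (N := N) (W := W) (p := p) (H := H) (fun s => z.getD s 0) hc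
    simp only [Int.cast_id] at this
    rw [sum_congr rfl fun s hs => by rw [ent_bs (mem_range.1 hs) (by omega)], this, tg,
      getD_map_range _ _ (by omega)]
    simp only [add_lt_iff_neg_left, not_lt_zero, decide_false, cond_false, add_tsub_cancel_left]
    ring

theorem emb_yes (μ : ℕ → ℤ) (hμ : ∀ c < K, p ∣ ∑ s ∈ range N, H c s * μ s - h c) :
    ∃ z, d2 (bs N K W p H) (tg N K W h) z = ∑ s ∈ range N, μ s ^ 2 := by
  let z := (List.range (N + K)).map fun s =>
    if s < N then μ s else -((∑ s' ∈ range N, H (s - N) s' * μ s' - h (s - N)) / p)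
  have h1 : ∀ s ∈ range N, z.getD s 0 = μ s := fun s hs => by
    have := mem_range.1 hs
    rw [getD_map_range _ _ (by omega), if_pos this]
  refine ⟨z, ?_⟩
  rw [d2_bs, sum_congr rfl fun s hs => by rw [h1 s hs], add_eq_left]
  refine sum_eq_zero fun c hc => ?_
  have hc := mem_range.1 hc
  rw [sum_congr rfl fun s hs => by rw [h1 s hs], getD_map_range _ _ (by omega),
    if_neg (by omega), add_tsub_cancel_left, neg_mul, Int.ediv_mul_cancel (hμ c hc)]
  simp

theorem emb_no (hW : 0 < W) (z : List ℤ) (hz : d2 (bs N K W p H) (tg N K W h) z < W) :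
    (∀ c < K, p ∣ ∑ s ∈ range N, H c s * z.getD s 0 - h c) ∧
      ∑ s ∈ range N, z.getD s 0 ^ 2 < W := by
  rw [d2_bs] at hz
  have h0 : 0 ≤ ∑ s ∈ range N, z.getD s 0 ^ 2 := sum_nonneg fun _ _ => sq_nonneg _
  refine ⟨fun c hc => ?_, lt_of_le_of_lt (le_add_of_nonneg_right
    (sum_nonneg fun _ _ => sq_nonneg _)) hz⟩
  have h1 := single_le_sum (f := fun c =>
    (W * (∑ s ∈ range N, H c s * z.getD s 0 - h c + z.getD (N + c) 0 * p)) ^ 2)
    (fun _ _ => sq_nonneg _) (mem_range.2 hc)
  beta_reduce at h1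
  generalize ∑ s ∈ range N, H c s * z.getD s 0 - h c = u at h1 ⊢
  by_contra h2
  have h3 : u + z.getD (N + c) 0 * p ≠ 0 := fun h3 => h2 ⟨-z.getD (N + c) 0, by linarith⟩
  generalize u + z.getD (N + c) 0 * p = v at h1 h3
  have h4 : 1 ≤ v ^ 2 := by have := pow_pos (abs_pos.2 h3) 2; rw [sq_abs] at this; omega
  rw [mul_pow] at h1
  nlinarith

theorem sum_flat (a b : ℕ) (f : ℕ → ℕ → ℤ) :
    ∑ s ∈ range (a * b), f (s / b) (s % b) = ∑ i ∈ range a, ∑ j ∈ range b, f i j := by
  induction a with
  | zero => simp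
  | succ a ih =>
    rw [Nat.succ_mul, sum_range_add, ih, sum_range_succ]
    congr 1
    refine sum_congr rfl fun j hj => ?_
    have hj := mem_range.1 hj
    rw [Nat.mul_comm a, Nat.mul_add_div (by omega), Nat.mul_add_mod, Nat.div_eq_of_lt hj,
      Nat.mod_eq_of_lt hj, Nat.add_zero]

theorem sum_flat3 (a p : ℕ) (f : ℕ → ℕ → ℕ → ℤ) :
    ∑ s ∈ range (a * p * p), f (s / p / p) (s / p % p) (s % p) =
      ∑ i ∈ range a, ∑ j ∈ range p, ∑ k ∈ range p, f i j k := by
  rw [sum_flat (a * p) p fun u k => f (u / p) (u % p) k,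
    sum_flat a p fun i j => ∑ k ∈ range p, f i j k]

/-- the matrix of the system -/
def HH (q : ℕ) (l : List Cn) (p d J c s : ℕ) : ℤ :=
  coef q l p d J (c / p / p) (c / p % p) (c % p) (s / p / p) (s / p % p) (s % p)

/-- the basis attached to a constraint satisfaction instance -/
def BB (q : ℕ) (l : List Cn) (p d J W : ℕ) : List (List ℤ) :=
  bs (l.length * (q * q) * p * p) ((2 * (l.length * (q * q)) + l.length + 1) * p * p) W p
    (HH q l p d J)

/-- the target attached to a constraint satisfaction instance -/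
def TT (q : ℕ) (l : List Cn) (p W : ℕ) : List ℤ :=
  tg (l.length * (q * q) * p * p) ((2 * (l.length * (q * q)) + l.length + 1) * p * p) W
    fun c => rhs q l (c / p / p)

theorem flat_idx {p i j k : ℕ} (hj : j < p) (hk : k < p) :
    ((i * p + j) * p + k) / p / p = i ∧ ((i * p + j) * p + k) / p % p = j ∧
      ((i * p + j) * p + k) % p = k := by
  have h1 : ((i * p + j) * p + k) / p = i * p + j := by
    rw [Nat.mul_comm, Nat.mul_add_div (by omega), Nat.div_eq_of_lt hk, Nat.add_zero]
  rw [h1, Nat.mul_comm, Nat.mul_comm (p * i + j), Nat.mul_add_div (by omega), Nat.mul_add_mod,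
    Nat.mul_add_mod, Nat.div_eq_of_lt hj, Nat.mod_eq_of_lt hj, Nat.mod_eq_of_lt hk]
  simp

theorem sys_yes {q : ℕ} {l : List Cn} {p d J : ℕ} (W : ℕ) (hp : 0 < p) {μ : ℕ → ℕ → ℕ → ℤ}
    (hμ : Sol q l p d J μ) :
    ∃ z, d2 (BB q l p d J W) (TT q l p W) z = nrm (l.length * (q * q)) p μ := by
  obtain ⟨z, hz⟩ := emb_yes (N := l.length * (q * q) * p * p)
    (K := (2 * (l.length * (q * q)) + l.length + 1) * p * p) (W := W) (p := p)
    (H := HH q l p d J) (h := fun c => rhs q l (c / p / p))
    (fun s => μ (s / p / p) (s / p % p) (s % p)) fun c hc => by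
      have := hμ (c / p / p) (Nat.div_lt_of_lt_mul (Nat.div_lt_of_lt_mul (by linarith)))
        (c / p % p) (Nat.mod_lt _ hp) (c % p) (Nat.mod_lt _ hp)
      rw [← sum_flat3] at this
      exact this
  refine ⟨z, hz.trans ?_⟩
  unfold nrm
  rw [← sum_flat3]

theorem sys_no {q : ℕ} {l : List Cn} {p d J W : ℕ} (hW : 0 < W) (z : List ℤ)
    (hz : d2 (BB q l p d J W) (TT q l p W) z < W) :
    ∃ μ, Sol q l p d J μ ∧ nrm (l.length * (q * q)) p μ < W := by
  obtain ⟨h1, h2⟩ := emb_no (by exact_mod_cast hW) z hz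
  have h3 : ∀ s, (s / p / p * p + s / p % p) * p + s % p = s := fun s => by
    rw [Nat.div_add_mod', Nat.div_add_mod']
  refine ⟨fun κ t y => z.getD ((κ * p + t) * p + y) 0, fun k hk j hj e he => ?_, ?_⟩
  · have := h1 ((k * p + j) * p + e) (by
      have : k * p + j + 1 ≤ (2 * (l.length * (q * q)) + l.length + 1) * p := by nlinarith
      nlinarith)
    obtain ⟨e1, e2, e3⟩ := flat_idx (i := k) hj he
    rw [← sum_flat3]
    simp only [HH, e1, e2, e3, h3] at this ⊢
    exact this
  · unfold nrm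
    rw [← sum_flat3]
    simpa only [h3] using h2

end Pool.Agent.P.MP_b0c4db_lc
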