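import Pool.Agent.P.MP_b0c4db_lc.Mach
import Pool.Agent.Lib.helper77.CookLevin

/-! Hardness of the closest vector problem from completeness and soundness of the system. -/

namespace Pool.Agent.P.MP_b0c4db_lc

open Pool.Agent.Lib.helper21

theorem sat_cons (q : ℕ) (l : List Cn) : Sat q ((0, q, 0, q) :: l) ↔ Sat q l := by
  refine exists_congr fun a => and_congr_right fun h => ?_
  rw [List.forall_mem_cons, and_iff_right]
  exact fun h1 => (h 0).ne h1.1

theorem csp (L : List Bool → Bool) (hL : L ∈ N68a2faeb.NP) :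
    ∃ (q : ℕ) (l : List Bool → List Cn), PT l ∧ (∀ x, l x ≠ []) ∧
      ∀ x, L x = true ↔ Sat q (l x) := by
  obtain ⟨q, F, hF, -, h⟩ := Lib.helper77.csp_hard L hL
  exact ⟨q, fun x => (0, q, 0, q) :: F x, by fun_prop, fun x => List.cons_ne_nil _ _,
    fun x => (h x).trans (sat_cons q (F x)).symm⟩

theorem pack (hy : S_Yes) (hn : S_No) (c : ℝ) (hc : c < 1 / 4) (L : List Bool → Bool)
    (hL : L ∈ N68a2faeb.NP) :
    ∃ (f : List Bool → List (List ℤ) × List ℤ × ℕ) (T w : List Bool → ℕ), PT f ∧ PT T ∧ ∀ x,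
      IsBasis (f x).1 (f x).2.1 ∧ 0 < (f x).2.2 ∧
      (L x = true → ∃ z, d2 (f x).1 (f x).2.1 z ≤ ((f x).2.2 : ℤ) ^ 2) ∧
      (∀ z, d2 (f x).1 (f x).2.1 z < T x → L x = true) ∧
      ((f x).1.length : ℝ) ^ c * ((f x).2.2 : ℝ) ≤ (w x : ℝ) ^ 2 ∧ w x ^ 4 < T x := by
  obtain ⟨q, l, hl, hne, hS⟩ := csp L hL
  obtain ⟨C, hC⟩ := gap c hc
  refine ⟨fun x => inst C q (l x), fun x => pW C q (l x), fun x => pw C q (l x), PT_inst C q hl,
    PT_pW C q hl, fun x => ⟨inst_basis (hne x), Nat.mul_pos (pv_pos (hne x)) (pw_pos (hne x)),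
      fun h => inst_yes hy (hne x) ((hS x).1 h), fun z h => (hS x).2 (inst_no hn (hne x) z h),
      ?_, pW_gt⟩⟩
  exact hC _ _ _ pu_pos (pv_pos (hne x)) (inst_rank (hne x)).1 (inst_rank (hne x)).2

theorem main (hy : S_Yes) (hn : S_No) (c : ℝ) (hc : c < 1 / 4) :
    Hard fun n => (n : ℝ) ^ c := by
  intro L hL
  obtain ⟨f, T, w, hf, hT, h⟩ := pack hy hn c hc L hL
  have hf' : PT fun a : List Bool × List ℤ => f a.1 := by fun_prop
  refine ⟨f, fun a => decide (d2 (f a.1).1 (f a.1).2.1 a.2 < T a.1), poly_f hf,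
    poly_g ((PT_d2 hf'.fst hf'.snd.fst (PT.snd PT.id)).intLt (by fun_prop)), fun x => ?_⟩
  obtain ⟨h1, h2, h3, h4, h5, h6⟩ := h x
  have h6 : ((w x : ℝ) ^ 2) ^ 2 < ((T x : ℤ) : ℝ) := by
    rw [← pow_mul]
    exact_mod_cast h6
  have h7 : (0 : ℝ) ≤ ((f x).1.length : ℝ) ^ c := by positivity
  have h9 : L x = true → ∃ z, dst (f x).1 (f x).2.1 z ≤ (f x).2.2 := fun h => by
    obtain ⟨z, hz⟩ := h3 h
    refine ⟨z, ?_⟩
    rw [dst_eq]
    exact Real.sqrt_le_iff.2 ⟨by positivity, by exact_mod_cast hz⟩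
  refine ⟨h1, h2, h9, fun h z => ?_, fun z hz => ?_⟩
  · rw [dst_eq]
    refine h5.trans_lt (Real.lt_sqrt_of_sq_lt (h6.trans_le ?_))
    exact_mod_cast not_lt.1 fun h' => by simpa [h] using h4 z h'
  · cases h : L x with
    | false => exact decide_eq_false fun h' => by simpa [h] using h4 z h'
    | true =>
      obtain ⟨y, hy⟩ := h9 h
      have := ((hz y).trans (mul_le_mul_of_nonneg_left hy h7)).trans h5
      rw [dst_eq] at this
      have := (Real.sqrt_le_iff.1 this).2.trans_lt h6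
      exact decide_eq_true (by exact_mod_cast this)

end Pool.Agent.P.MP_b0c4db_lc
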