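import Pool.Agent.P.MP_b0c4db_lc.Par
import Pool.Agent.Lib.helper77.Raw
import Pool.Agent.Lib.helper26.PTExtra

/-! The instance and the squared distance are computed in polynomial time. -/

namespace Pool.Agent.P.MP_b0c4db_lc

open Pool.Agent.Lib.helper21 Pool.Agent.Lib.helper26 N487b59b3

variable {α : Type} [Enc α]

@[fun_prop] theorem PT_con (q : ℕ) {l : α → List Cn} {κ : α → ℕ} (hl : PT l) (hκ : PT κ) :
    PT fun a => con q (l a) (κ a) := by
  unfold con; fun_prop

@[fun_prop] theorem PT_pt (q : ℕ) {l : α → List Cn} {κ : α → ℕ} {b : α → Bool} (hl : PT l)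
    (hκ : PT κ) (hb : PT b) : PT fun a => pt q (l a) (κ a) (b a) := by
  unfold pt; fun_prop

@[fun_prop] theorem PT_vl (q : ℕ) {κ : α → ℕ} {b : α → Bool} (hκ : PT κ) (hb : PT b) :
    PT fun a => vl q (κ a) (b a) := by
  unfold vl; fun_prop

@[fun_prop] theorem PT_ok (q : ℕ) {l : α → List Cn} {κ : α → ℕ} (hl : PT l) (hκ : PT κ) :
    PT fun a => ok q (l a) (κ a) := by
  unfold ok; fun_prop

@[fun_prop] theorem PT_act {p d J j e : α → ℕ} (hp : PT p) (hd : PT d) (hJ : PT J) (hj : PT j)
    (he : PT e) : PT fun a => act (p a) (d a) (J a) (j a) (e a) := by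
  unfold act; fun_prop

@[fun_prop] theorem PT_ind {b : α → Bool} (hb : PT b) : PT fun a => ind (b a) := by
  unfold ind; fun_prop

@[fun_prop] theorem PT_coef (q : ℕ) {l : α → List Cn} {p d J k j e κ t y : α → ℕ} (hl : PT l)
    (hp : PT p) (hd : PT d) (hJ : PT J) (hk : PT k) (hj : PT j) (he : PT e) (hκ : PT κ)
    (ht : PT t) (hy : PT y) :
    PT fun a => coef q (l a) (p a) (d a) (J a) (k a) (j a) (e a) (κ a) (t a) (y a) := by
  unfold coef; fun_prop

@[fun_prop] theorem PT_rhs (q : ℕ) {l : α → List Cn} {k : α → ℕ} (hl : PT l) (hk : PT k) :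
    PT fun a => rhs q (l a) (k a) := by
  unfold rhs; fun_prop

@[fun_prop] theorem PT_HH (q : ℕ) {l : α → List Cn} {p d J c s : α → ℕ} (hl : PT l)
    (hp : PT p) (hd : PT d) (hJ : PT J) (hc : PT c) (hs : PT s) :
    PT fun a => HH q (l a) (p a) (d a) (J a) (c a) (s a) := by
  unfold HH; fun_prop

@[fun_prop] theorem PT_BB (q : ℕ) {l : α → List Cn} {p d J W : α → ℕ} (hl : PT l)
    (hp : PT p) (hd : PT d) (hJ : PT J) (hW : PT W) :
    PT fun a => BB q (l a) (p a) (d a) (J a) (W a) := by
  unfold BB bs be; fun_prop

@[fun_prop] theorem PT_TT (q : ℕ) {l : α → List Cn} {p W : α → ℕ} (hl : PT l)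
    (hp : PT p) (hW : PT W) : PT fun a => TT q (l a) (p a) (W a) := by
  unfold TT tg; fun_prop

@[fun_prop] theorem PT_isP {k : α → ℕ} (hk : PT k) : PT fun a => isP (k a) := by
  unfold isP; fun_prop

@[fun_prop] theorem PT_pr {k : α → ℕ} (hk : PT k) : PT fun a => pr (k a) := by
  unfold pr; fun_prop

@[fun_prop] theorem PT_pd {l : α → List Cn} (hl : PT l) : PT fun a => pd (l a) := by
  unfold pd; fun_prop

@[fun_prop] theorem PT_pX (q : ℕ) {l : α → List Cn} (hl : PT l) : PT fun a => pX q (l a) := by
  unfold pX; fun_prop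

@[fun_prop] theorem PT_pv (q : ℕ) {l : α → List Cn} (hl : PT l) : PT fun a => pv q (l a) := by
  unfold pv; fun_prop

@[fun_prop] theorem PT_pw (C q : ℕ) {l : α → List Cn} (hl : PT l) : PT fun a => pw C q (l a) := by
  unfold pw pu; fun_prop

@[fun_prop] theorem PT_pW (C q : ℕ) {l : α → List Cn} (hl : PT l) : PT fun a => pW C q (l a) := by
  unfold pW; fun_prop

theorem PT_inst (C q : ℕ) {l : α → List Cn} (hl : PT l) : PT fun a => inst C q (l a) := by
  unfold inst pp pJ; fun_prop

theorem sum_range_list (n : ℕ) (f : ℕ → ℤ) :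
    ((List.range n).map f).sum = ∑ i ∈ Finset.range n, f i := by
  induction n with
  | zero => rfl
  | succ n ih =>
    rw [List.range_succ, List.map_append, List.sum_append, ih, Finset.sum_range_succ]
    simp

theorem PT_d2 {B : α → List (List ℤ)} {t z : α → List ℤ} (hB : PT B) (ht : PT t) (hz : PT z) :
    PT fun a => d2 (B a) (t a) (z a) :=
  PT.of_eq (f := fun a => ((List.range (t a).length).map fun i =>
    (((List.range (B a).length).map fun j =>
      (z a).getD j 0 * ((B a).getD j []).getD i 0).sum - (t a).getD i 0) ^ 2).sum)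
    (by fun_prop) fun a => by simp only [sum_range_list]; rfl

/-! Output encoding. -/

theorem encodeNat_eq (n : ℕ) : Computability.encodeNat n = n.bits := by
  have h : ∀ p : PosNum, Computability.encodePosNum p = (p : ℕ).bits := by
    intro p
    induction p with
    | one => rfl
    | bit0 p ih =>
      rw [Computability.encodePosNum, ih, PosNum.cast_bit0, ← two_mul,
        Nat.bit0_bits _ (PosNum.cast_pos p).ne']
    | bit1 p ih =>
      rw [Computability.encodePosNum, ih, PosNum.cast_bit1, ← two_mul, Nat.bit1_bits]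
  unfold Computability.encodeNat
  conv_rhs => rw [← Num.to_of_nat n]
  cases (n : Num) with
  | zero => simp [Computability.encodeNum]
  | pos p => exact h p

theorem PT_bits : PT fun z : ℤ => z.natAbs.bits :=
  PT_ofRaw.comp (g := fun z : ℤ => Raw.mk z.natAbs.bits) (PT.absB PT.id)

section

variable {δ β γ : Type} [Enc δ] [N487b59b3 β] [N487b59b3 γ]

theorem out_nat {f : α → ℕ} (hf : PT f) : PT fun a => bitEncode (f a) :=
  (PT_bits.comp hf.natCast).of_eq fun a => (encodeNat_eq (f a)).symm

theorem out_del {f : α → List Bool} (hf : PT f) : PT fun a => delimit (f a) :=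
  PT.of_eq (f := fun a => ((f a).flatMap fun b => [true, b]) ++ [false]) (by fun_prop)
    fun _ => (Lib.helper77.delimit_eq _).symm

theorem out_pair {f : α → β} {g : α → γ} (hf : PT fun a => bitEncode (f a))
    (hg : PT fun a => bitEncode (g a)) : PT fun a => bitEncode (f a, g a) :=
  (out_del hf).append hg

theorem out_list {l : α → List δ} [N487b59b3 δ] (hl : PT l) (h : PT fun x : δ => bitEncode x) :
    PT fun a => bitEncode (l a) :=
  (hl.flatMap (g := fun _ x => delimit (bitEncode x)) (out_del (h.comp (by fun_prop)))).of_eq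
    fun a => by
      show _ = (((l a).map bitEncode).map delimit).flatten
      rw [List.map_map, List.flatMap_def]
      rfl

end

theorem enc_int (z : ℤ) : bitEncode z = delimit z.toNat.bits ++ (-z).toNat.bits := by
  rw [← encodeNat_eq, ← encodeNat_eq]; rfl

theorem out_int : PT fun z : ℤ => bitEncode z := by
  have h := PT_bits
  have h1 : PT fun z : ℤ => z.toNat.bits :=
    (PT.cond (PT.isNeg PT.id) (PT.const []) h).of_eq fun z => by
      by_cases hz : z < 0
      · simp [isNeg, hz, Int.toNat_of_nonpos hz.le]
      · simp only [isNeg, hz, decide_false, cond_false]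
        congr 1
        omega
  exact ((out_del h1).append (h1.comp (PT.intNeg PT.id))).of_eq fun z => (enc_int z).symm

theorem poly_f {f : List Bool → List (List ℤ) × List ℤ × ℕ} (hf : PT f) :
    N68a2faeb.IsPolyTime f :=
  Lib.helper77.toPrelude (e := bitEncode)
    (out_pair (out_list hf.fst (out_list PT.id out_int))
      (out_pair (out_list hf.snd.fst out_int) (out_nat hf.snd.snd)))

/-! Input decoding. -/

/-- one step of the parser -/
def stp (s : Bool × List Bool × List (List Bool)) (b : Bool) :
    Bool × List Bool × List (List Bool) :=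
  cond s.1 (false, b :: s.2.1, s.2.2)
    (cond b (true, s.2.1, s.2.2) (false, [], s.2.1.reverse :: s.2.2))

/-- the blocks of a word -/
def blk (y : List Bool) : List (List Bool) := (y.foldl stp (false, [], [])).2.2.reverse

theorem stp_acc (y : List Bool) : ∀ (m : Bool) (u : List Bool) (v : List (List Bool)),
    (y.foldl stp (m, u, v)).2.2 = (y.foldl stp (m, u, [])).2.2 ++ v := by
  induction y with
  | nil => intros; rfl
  | cons b y ih =>
    intro m u v
    cases m <;> cases b <;> simp only [List.foldl_cons, stp, cond_true, cond_false]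
    · rw [ih _ _ (_ :: v), ih _ _ [_], List.append_assoc]; rfl
    all_goals exact ih _ _ _

theorem stp_del (x r : List Bool) : ∀ u : List Bool,
    (delimit x ++ r).foldl stp (false, u, []) = r.foldl stp (false, [], [u.reverse ++ x]) := by
  induction x with
  | nil => intro u; simp [delimit, stp]
  | cons b x ih =>
    intro u
    have := ih (b :: u)
    simpa [delimit, stp] using this

theorem blk_del (x r : List Bool) : blk (delimit x ++ r) = x :: blk r := by
  unfold blk
  rw [stp_del, stp_acc]
  simp

theorem blk_list (l : List (List Bool)) : blk (l.map delimit).flatten = l := by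
  induction l with
  | nil => rfl
  | cons x l ih => rw [List.map_cons, List.flatten_cons, blk_del, ih]

theorem sz_bools (l : List Bool) : sz l = 4 * l.length + 1 := by
  induction l with
  | nil => rfl
  | cons b l ih => rw [sz_cons, ih, sz_bool, List.length_cons]; omega

@[fun_prop] theorem PT_blk {y : α → List Bool} (hy : PT y) : PT fun a => blk (y a) := by
  refine (PT.foldl_add (f := fun _ => stp) (by unfold stp; fun_prop) hy
    (PT.const (false, [], [])) (fun _ => 8) (Bd.const _ _) fun _ s b => ?_).snd.snd.reverse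
  obtain ⟨m, u, v⟩ := s
  cases m <;> cases b <;>
    simp only [stp, cond_true, cond_false, sz_pair, sz_cons, sz_bool, sz_bools u, sz_nil,
      sz_bools u.reverse, List.length_reverse] <;> omega

/-- first component -/
def c1 (y : List Bool) : List Bool := (blk y).headD []

/-- second component -/
def c2 (y : List Bool) : List Bool := y.drop (2 * (c1 y).length + 1)

theorem c1_del (x r : List Bool) : c1 (delimit x ++ r) = x := by simp [c1, blk_del]

theorem c2_del (x r : List Bool) : c2 (delimit x ++ r) = r := by
  rw [c2, c1_del, ← length_delimit, List.drop_left]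

@[fun_prop] theorem PT_c1 {y : α → List Bool} (hy : PT y) : PT fun a => c1 (y a) := by
  unfold c1; fun_prop

@[fun_prop] theorem PT_c2 {y : α → List Bool} (hy : PT y) : PT fun a => c2 (y a) := by
  unfold c2; fun_prop

/-- value of a binary word -/
def vn (y : List Bool) : ℤ := valB y.reverse 0

theorem vn_bits (n : ℕ) : vn n.bits = n := by
  unfold vn valB
  rw [List.foldl_reverse]
  congr 1
  induction n using Nat.binaryRec' with
  | zero => simp
  | bit b n h ih => rw [Nat.bits_append_bit _ _ h, List.foldr_cons, ih]

@[fun_prop] theorem PT_vn {y : α → List Bool} (hy : PT y) : PT fun a => vn (y a) :=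
  (PT.valB hy.reverse (PT.const (Bn.mk 0))).toZ

/-- the decoder -/
def dec (y : List Bool) : List Bool × List ℤ :=
  ((blk (c1 y)).flatten, (blk (c2 y)).map fun u => vn (c1 u) - vn (c2 u))

theorem dec_enc (a : List Bool × List ℤ) : dec (bitEncode a) = a := by
  obtain ⟨x, z⟩ := a
  show dec (delimit ((x.map bitEncode).map delimit).flatten ++
    ((z.map bitEncode).map delimit).flatten) = _
  rw [dec, c1_del, c2_del, blk_list, blk_list, List.map_map]
  congr 1
  · induction x with
    | nil => rfl
    | cons b x ih => rw [List.map_cons, List.flatten_cons, ih]; rfl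
  · refine (List.map_congr_left fun u _ => ?_).trans (List.map_id z)
    simp only [Function.comp, enc_int, c1_del, c2_del, vn_bits, id]
    omega

theorem poly_g {g : List Bool × List ℤ → Bool} (hg : PT g) : N68a2faeb.IsPolyTime g := by
  have h1 : PT dec := by unfold dec; fun_prop
  have h2 : PT fun y : Raw => g (dec y.w) := hg.comp (h1.comp PT_ofRaw)
  refine Rl.toTM2 ((Rl.reindex h2 fun a => Raw.mk (bitEncode a)).congr fun a => ?_)
  show [g (dec (bitEncode a))] = _
  rw [dec_enc]
  rfl

end Pool.Agent.P.MP_b0c4db_lc
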