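import Pool.Agent.P.MP_b0c4db_lc.Stm

/-! Completeness: a satisfying assignment gives a short solution of the system. -/

namespace Pool.Agent.P.MP_b0c4db_lc

open Finset Polynomial

namespace YesAux

theorem pow_sum_zero (p : ℕ) [Fact p.Prime] (n : ℕ) (h : n + 1 < p ∨ (p ≤ n ∧ n + 2 < 2 * p)) :
    ∑ s : ZMod p, s ^ n = 0 := by
  rcases h with h | ⟨h, h'⟩
  · exact FiniteField.sum_pow_lt_card_sub_one (ZMod p) n (by rw [ZMod.card]; omega)
  · obtain ⟨k, rfl⟩ := le_iff_exists_add.mp h
    have : ∀ s : ZMod p, s ^ (p + k) = s ^ (k + 1) := by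
      intro s; rw [pow_add, ZMod.pow_card, pow_succ, mul_comm]
    simp only [this]
    exact FiniteField.sum_pow_lt_card_sub_one (ZMod p) _ (by rw [ZMod.card]; omega)

theorem moment_zero (p : ℕ) [Fact p.Prime] (f : (ZMod p)[X]) (d J j e : ℕ) (hf : f.natDegree ≤ d)
    (α u : ZMod p) (hα : f.eval α = u) (hJ : J * (d + 1) + 1 < p) (he : e < p)
    (hact : act p d J j e = true) : ∑ t : ZMod p, (f.eval t - u) ^ j * (t - α) ^ e = 0 := by
  simp only [act, Bool.and_eq_true, Bool.or_eq_true, decide_eq_true_eq] at hact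
  obtain ⟨hj, hc⟩ := hact
  obtain ⟨g, hg⟩ : (X - C α) ∣ f - C u := dvd_iff_isRoot.mpr (by simp [hα])
  have hgd : g.natDegree ≤ d := by
    by_cases hz : g = 0
    · simp [hz]
    · have h1 : (f - C u).natDegree ≤ d := (natDegree_sub_le _ _).trans (by simpa using hf)
      rw [hg, natDegree_mul (X_sub_C_ne_zero α) hz] at h1
      omega
  set G := (taylor α g) ^ j with hG
  have hGd : G.natDegree ≤ j * d := by
    rw [hG, natDegree_pow, natDegree_taylor]; exact Nat.mul_le_mul_left _ hgd
  rw [← Equiv.sum_comp (Equiv.addRight α)]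
  have : ∀ s : ZMod p, (f.eval (Equiv.addRight α s) - u) ^ j * (Equiv.addRight α s - α) ^ e =
      ∑ i ∈ range (j * d + 1), G.coeff i * s ^ (i + j + e) := by
    intro s
    have h1 := congrArg (eval (s + α)) hg
    simp only [eval_sub, eval_C, eval_mul, eval_X, add_sub_cancel_right] at h1
    have h2 : G.eval s = g.eval (s + α) ^ j := by rw [hG, eval_pow, taylor_eval]
    rw [Equiv.coe_addRight, h1, add_sub_cancel_right, mul_pow, ← h2,
      eval_eq_sum_range' (Nat.lt_succ_of_le hGd), Finset.mul_sum, Finset.sum_mul]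
    exact Finset.sum_congr rfl fun i _ => by ring
  simp only [this]
  rw [Finset.sum_comm]
  apply Finset.sum_eq_zero
  intro i hi
  have hi' := mem_range.mp hi
  have h3 : j * (d + 1) ≤ J * (d + 1) := Nat.mul_le_mul_right _ hj
  rw [mul_add, mul_one] at h3
  rw [← Finset.mul_sum, pow_sum_zero p _ (by omega), mul_zero]

theorem sum_range_cast (p : ℕ) [NeZero p] (φ : ZMod p → ZMod p) :
    ∑ t ∈ range p, φ (t : ZMod p) = ∑ t : ZMod p, φ t := by
  refine Finset.sum_bij' (fun t _ => (t : ZMod p)) (fun t _ => t.val) (fun _ _ => mem_univ _)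
    (fun t _ => mem_range.mpr (ZMod.val_lt t)) (fun t ht => ?_) (fun t _ => ?_) (fun _ _ => rfl)
  · exact ZMod.val_cast_of_lt (mem_range.mp ht)
  · exact ZMod.natCast_zmod_val t

theorem exists_interp (p : ℕ) [Fact p.Prime] (d : ℕ) (hd : d ≤ p) (a : ℕ → ℕ) :
    ∃ f : (ZMod p)[X], f.natDegree ≤ d ∧ ∀ c < d, f.eval (c : ZMod p) = a c := by
  have hinj : Set.InjOn (fun c : ℕ => (c : ZMod p)) (range d : Finset ℕ) := by
    intro x hx y hy h
    have hx' : x < p := (mem_range.mp hx).trans_le hd
    have hy' : y < p := (mem_range.mp hy).trans_le hd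
    have := congrArg ZMod.val h
    simpa [ZMod.val_cast_of_lt hx', ZMod.val_cast_of_lt hy'] using this
  refine ⟨Lagrange.interpolate (range d) (fun c : ℕ => (c : ZMod p)) fun c => (a c : ZMod p), ?_,
    fun c hc => Lagrange.eval_interpolate_at_node _ hinj (mem_range.mpr hc)⟩
  have := Lagrange.degree_interpolate_lt (r := fun c => (a c : ZMod p)) hinj
  rw [card_range] at this
  exact natDegree_le_of_degree_le this.le

/-- the option of constraint `i` chosen by the assignment `a` -/
def tr (q : ℕ) (l : List Cn) (a : ℕ → ℕ) (i : ℕ) : ℕ :=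
  (i * q + a (l.getD i (0, 0, 0, 0)).1) * q + a (l.getD i (0, 0, 0, 0)).2.2.1

variable {q : ℕ} {l : List Cn} {a : ℕ → ℕ}

theorem tr_div (ha : ∀ c, a c < q) (i : ℕ) :
    tr q l a i / q = i * q + a (l.getD i (0, 0, 0, 0)).1 := by
  have hq : 0 < q := (Nat.zero_le _).trans_lt (ha 0)
  rw [tr, add_comm, Nat.add_mul_div_right _ _ hq, Nat.div_eq_of_lt (ha _), zero_add]

theorem tr_div2 (ha : ∀ c, a c < q) (i : ℕ) : tr q l a i / (q * q) = i := by
  have hq : 0 < q := (Nat.zero_le _).trans_lt (ha 0)
  rw [← Nat.div_div_eq_div_mul, tr_div ha, add_comm, Nat.add_mul_div_right _ _ hq,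
    Nat.div_eq_of_lt (ha _), zero_add]

theorem tr_lt (ha : ∀ c, a c < q) {i m : ℕ} (hi : i < m) : tr q l a i < m * (q * q) := by
  have hq : 0 < q := (Nat.zero_le _).trans_lt (ha 0)
  rw [← Nat.div_lt_iff_lt_mul (Nat.mul_pos hq hq), tr_div2 ha]
  exact hi

theorem vl_tr (ha : ∀ c, a c < q) (i : ℕ) (b : Bool) :
    vl q (tr q l a i) b = a (pt q l (tr q l a i) b) := by
  cases b
  · simp only [vl, pt, con, cond_false, tr_div2 ha]
    rw [tr, Nat.mul_add_mod', Nat.mod_eq_of_lt (ha _)]
  · simp only [vl, pt, con, cond_true, tr_div2 ha]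
    rw [tr_div ha, Nat.mul_add_mod', Nat.mod_eq_of_lt (ha _)]

theorem con_mem (ha : ∀ c, a c < q) {i : ℕ} (hi : i < l.length) : con q l (tr q l a i) ∈ l := by
  rw [con, tr_div2 ha, List.getD_eq_getElem _ _ hi]
  exact List.getElem_mem hi

theorem sum_mu (ha : ∀ c, a c < q) (m p : ℕ) (fv : ℕ → ℕ) (hfv : ∀ t, fv t < p)
    (φ : ℕ → ℕ → ℕ → ℤ) :
    ∑ κ ∈ range (m * (q * q)), ∑ t ∈ range p, ∑ y ∈ range p,
      φ κ t y * (if κ = tr q l a (κ / (q * q)) ∧ y = fv t then 1 else 0) =
      ∑ i ∈ range m, ∑ t ∈ range p, φ (tr q l a i) t (fv t) := by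
  have hq : 0 < q := (Nat.zero_le _).trans_lt (ha 0)
  have h1 : ∀ κ, ∑ t ∈ range p, ∑ y ∈ range p,
      φ κ t y * (if κ = tr q l a (κ / (q * q)) ∧ y = fv t then 1 else 0) =
      if κ = tr q l a (κ / (q * q)) then ∑ t ∈ range p, φ κ t (fv t) else 0 := by
    intro κ
    split_ifs with h
    · apply Finset.sum_congr rfl
      intro t _
      rw [Finset.sum_eq_single (fv t)]
      · rw [if_pos ⟨h, rfl⟩, mul_one]
      · intro y _ hy
        rw [if_neg fun hh => hy hh.2, mul_zero]
      · intro hn; exact absurd (mem_range.mpr (hfv t)) hn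
    · exact Finset.sum_eq_zero fun t _ => Finset.sum_eq_zero fun y _ => by
        rw [if_neg fun hh => h hh.1, mul_zero]
  simp only [h1]
  rw [← Finset.sum_filter]
  symm
  refine Finset.sum_bij' (fun i _ => tr q l a i) (fun κ _ => κ / (q * q)) (fun i hi => ?_)
    (fun κ hκ => ?_) (fun i _ => tr_div2 ha i) (fun κ hκ => (mem_filter.mp hκ).2.symm)
    (fun _ _ => rfl)
  · exact mem_filter.mpr ⟨mem_range.mpr (tr_lt ha (mem_range.mp hi)), by rw [tr_div2 ha]⟩
  · exact mem_range.mpr ((Nat.div_lt_iff_lt_mul (Nat.mul_pos hq hq)).mpr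
      (mem_range.mp (mem_filter.mp hκ).1))

theorem ind_decide (P : Prop) [Decidable P] : ind (decide P) = if P then 1 else 0 := by
  by_cases h : P <;> simp [ind, h]

end YesAux

open YesAux

theorem yes : S_Yes := by
  intro q l p d J hp hl hd hdp hJ ⟨a, ha, hsat⟩
  have := Fact.mk hp
  obtain ⟨f, hfd, hf⟩ := exists_interp p d hdp a
  have hm : 0 < l.length := List.length_pos_iff.mpr hl
  set fv : ℕ → ℕ := fun t => (f.eval (t : ZMod p)).val with hfv
  have hfvp : ∀ t, fv t < p := fun t => ZMod.val_lt _
  have hok : ∀ i < l.length, ok q l (tr q l a i) = true := by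
    intro i hi
    have := hsat _ (con_mem ha hi)
    simp only [ok, vl_tr ha, pt, cond_true, cond_false, Bool.not_eq_true', Bool.and_eq_false_imp,
      decide_eq_true_eq, decide_eq_false_iff_not]
    tauto
  refine ⟨fun κ t y => if κ = tr q l a (κ / (q * q)) ∧ y = fv t then 1 else 0, ?_, ?_⟩
  · intro k hk j hj e he
    rw [sum_mu ha _ p fv hfvp (fun κ t y => coef q l p d J k j e κ t y)]
    by_cases h1 : k < 2 * (l.length * (q * q))
    · rw [rhs, ind_decide, if_neg (by omega), sub_zero]
      apply Finset.dvd_sum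
      intro i hi
      simp only [coef, h1, decide_true, cond_true]
      rw [← Finset.mul_sum]
      cases hact : act p d J j e
      · simp [ind]
      · apply Dvd.dvd.mul_left
        rw [← ZMod.intCast_zmod_eq_zero_iff_dvd]
        push_cast
        simp only [hfv, ZMod.natCast_zmod_val]
        rw [sum_range_cast p (fun t => (f.eval t - (vl q (tr q l a i) (decide (k % 2 = 0)) : ℕ)) ^ j
          * (t - (pt q l (tr q l a i) (decide (k % 2 = 0)) : ℕ)) ^ e)]
        refine moment_zero p f d J j e hfd _ _ ?_ hJ he hact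
        rw [vl_tr ha]
        apply hf
        have := hd _ (con_mem ha (mem_range.mp hi))
        cases (decide (k % 2 = 0))
        · exact this.2
        · exact this.1
    · by_cases h2 : k < 2 * (l.length * (q * q)) + l.length
      · rw [rhs, ind_decide, if_neg (by omega), sub_zero]
        have : ∑ i ∈ range l.length, ∑ t ∈ range p, coef q l p d J k j e (tr q l a i) t (fv t) =
            ∑ i ∈ range l.length, (∑ t ∈ range p, ind (decide (t = j) && decide (fv t = e))) *
              ((if i = k - 2 * (l.length * (q * q)) then 1 else 0) - (if i = 0 then 1 else 0)) := by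
          apply Finset.sum_congr rfl
          intro i hi
          rw [Finset.sum_mul]
          apply Finset.sum_congr rfl
          intro t _
          simp only [coef, h1, h2, decide_true, decide_false, cond_true, cond_false,
            hok i (mem_range.mp hi), Bool.and_true, tr_div2 ha, ind_decide]
          congr 2
          exact if_congr (by omega) rfl rfl
        rw [this, ← Finset.mul_sum, Finset.sum_sub_distrib, Finset.sum_ite_eq', Finset.sum_ite_eq',
          if_pos (mem_range.mpr (by omega)), if_pos (mem_range.mpr hm), sub_self, mul_zero]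
        exact dvd_zero _
      · rw [rhs, ind_decide, if_pos (by omega)]
        have : ∑ i ∈ range l.length, ∑ t ∈ range p, coef q l p d J k j e (tr q l a i) t (fv t) =
            ∑ i ∈ range l.length, if i = 0 then ∑ t ∈ range p, (if t = j then 1 else 0) else 0 := by
          apply Finset.sum_congr rfl
          intro i hi
          simp only [coef, h1, h2, decide_false, cond_false,
            hok i (mem_range.mp hi), Bool.and_true, tr_div2 ha]
          split_ifs with h0
          · apply Finset.sum_congr rfl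
            intro t _
            simp [h0, ind_decide]
          · apply Finset.sum_eq_zero
            intro t _
            simp [h0, ind]
        rw [this, Finset.sum_ite_eq', if_pos (mem_range.mpr hm), Finset.sum_ite_eq',
          if_pos (mem_range.mpr hj), sub_self]
        exact dvd_zero _
  · unfold nrm
    simp only [sq]
    rw [sum_mu ha _ p fv hfvp
      (fun κ t y => if κ = tr q l a (κ / (q * q)) ∧ y = fv t then 1 else 0)]
    simp only [tr_div2 ha, and_self, if_true, sum_const, card_range, nsmul_eq_mul, mul_one]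
    rw [mul_comm]

end Pool.Agent.P.MP_b0c4db_lc
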