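import Pool.Agent.P.MP_b0c4db_lc.Emb

/-! The choice of the parameters. -/

namespace Pool.Agent.P.MP_b0c4db_lc

open Finset

/-- primality test by trial division -/
def isP (k : ℕ) : Bool :=
  decide (2 ≤ k) && (List.range k).all fun j => decide (j < 2) || !decide (k % j = 0)

theorem isP_iff (k : ℕ) : isP k = true ↔ k.Prime := by
  rw [Nat.prime_def_lt']
  simp only [isP, Bool.and_eq_true, decide_eq_true_eq, List.all_eq_true, List.mem_range,
    Bool.or_eq_true, Bool.not_eq_true', decide_eq_false_iff_not, Nat.dvd_iff_mod_eq_zero]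
  refine and_congr_right fun _ => forall_congr' fun j => ?_
  omega

/-- a prime between `n` and `2 n` -/
def pr (n : ℕ) : ℕ := ((List.range (2 * n + 1)).filter fun k => decide (n < k) && isP k).headD 0

theorem pr_spec {n : ℕ} (hn : n ≠ 0) : (pr n).Prime ∧ n < pr n ∧ pr n ≤ 2 * n := by
  obtain ⟨p, h1, h2, h3⟩ := Nat.exists_prime_lt_and_le_two_mul n hn
  have h4 : p ∈ (List.range (2 * n + 1)).filter fun k => decide (n < k) && isP k := by
    simp [isP_iff, h1, h2]
    omega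
  have h5 : pr n ∈ (List.range (2 * n + 1)).filter fun k => decide (n < k) && isP k := by
    unfold pr
    generalize ((List.range (2 * n + 1)).filter fun k => decide (n < k) && isP k) = L at h4
    cases L with
    | nil => simp at h4
    | cons a L => simp
  simp only [List.mem_filter, List.mem_range, Bool.and_eq_true, decide_eq_true_eq, isP_iff] at h5
  exact ⟨h5.2.2, h5.2.1, by omega⟩

def pd (l : List Cn) : ℕ := (l.map fun f => f.1 + f.2.2.1).sum + 1

def pX (q : ℕ) (l : List Cn) : ℕ :=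
  (4 * (l.length * (q * q)) * pd l + 4) * (pd l + 1) + q + pd l

def pu (q : ℕ) (l : List Cn) : ℕ := 16 * (3 * (l.length * (q * q)) + l.length + 1) * pX q l ^ 2

def pv (q : ℕ) (l : List Cn) : ℕ := 2 * pX q l * l.length

def pw (C q : ℕ) (l : List Cn) : ℕ := (pu q l * pv q l) ^ C

def pJ (C q : ℕ) (l : List Cn) : ℕ :=
  4 * (l.length * (q * q)) * pd l * pw C q l ^ 2 + 1 + 3 * pw C q l ^ 2

def pp (C q : ℕ) (l : List Cn) : ℕ := pr (2 * (pw C q l ^ 2 * pX q l))

def pW (C q : ℕ) (l : List Cn) : ℕ := (pw C q l ^ 2 * pX q l + 1) * (pw C q l ^ 2 + 1)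

/-- the closest vector instance -/
def inst (C q : ℕ) (l : List Cn) : List (List ℤ) × List ℤ × ℕ :=
  (BB q l (pp C q l) (pd l) (pJ C q l) (pW C q l), TT q l (pp C q l) (pW C q l),
    pv q l * pw C q l)

variable {C q : ℕ} {l : List Cn}

theorem pX_pos : 0 < pX q l := by unfold pX; positivity

theorem pu_pos : 0 < pu q l := by have := pX_pos (q := q) (l := l); unfold pu; positivity

theorem pv_pos (hl : l ≠ []) : 0 < pv q l := by
  have := pX_pos (q := q) (l := l)
  have := List.length_pos_iff.2 hl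
  unfold pv; positivity

theorem pw_pos (hl : l ≠ []) : 0 < pw C q l := by
  have := pu_pos (q := q) (l := l)
  have := pv_pos (q := q) hl
  unfold pw; positivity

theorem pp_spec (hl : l ≠ []) : (pp C q l).Prime ∧ 2 * (pw C q l ^ 2 * pX q l) < pp C q l ∧
    pp C q l ≤ 2 * (2 * (pw C q l ^ 2 * pX q l)) := by
  have := pX_pos (q := q) (l := l)
  have := pw_pos (C := C) (q := q) hl
  exact pr_spec (by positivity)

theorem pJ_le (hl : l ≠ []) : pJ C q l * (pd l + 1) ≤ pw C q l ^ 2 * pX q l := by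
  have h : 1 ≤ pw C q l ^ 2 := Nat.one_le_pow _ _ (pw_pos hl)
  unfold pJ pX
  generalize pw C q l ^ 2 = e at h
  generalize 4 * (l.length * (q * q)) * pd l = B
  calc _ ≤ e * (B + 4) * (pd l + 1) := Nat.mul_le_mul_right _ (by nlinarith)
    _ ≤ _ := by rw [mul_assoc]; exact Nat.mul_le_mul_left _ (by omega)

theorem pX_le (hl : l ≠ []) : pX q l ≤ pw C q l ^ 2 * pX q l :=
  Nat.le_mul_of_pos_left _ (Nat.one_le_pow _ _ (pw_pos hl))

theorem inst_basis (hl : l ≠ []) : IsBasis (inst C q l).1 (inst C q l).2.1 := by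
  simp only [inst, BB, TT]
  exact isBasis_bs (W := pW C q l) (p := pp C q l) (by unfold pW; positivity)
    (by exact_mod_cast (pp_spec hl).1.ne_zero)

theorem inst_yes (hy : S_Yes) (hl : l ≠ []) (h : Sat q l) :
    ∃ z, d2 (inst C q l).1 (inst C q l).2.1 z ≤ ((inst C q l).2.2 : ℤ) ^ 2 := by
  obtain ⟨h1, h2, h3⟩ := pp_spec (C := C) (q := q) hl
  have h4 := pJ_le (C := C) (q := q) hl
  have h5 := pX_le (C := C) (q := q) hl
  have h6 := pX_pos (q := q) (l := l)
  have h7 : pd l ≤ pX q l := Nat.le_add_left _ _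
  obtain ⟨μ, h8, h9⟩ := hy q l (pp C q l) (pd l) (pJ C q l) h1 hl (fun f hf => by
    have := List.single_le_sum (l := l.map fun f => f.1 + f.2.2.1) (fun _ _ => Nat.zero_le _) _
      (List.mem_map_of_mem hf)
    unfold pd
    omega) (by omega) (by omega) h
  obtain ⟨z, hz⟩ := sys_yes (pW C q l) h1.pos h8
  refine ⟨z, hz.trans_le (h9.trans ?_)⟩
  have : pp C q l * l.length ≤ (pv q l * pw C q l) ^ 2 := by
    have h0 := List.length_pos_iff.2 hl
    calc _ ≤ 2 * (2 * (pw C q l ^ 2 * pX q l)) * l.length * (pX q l * l.length) :=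
          (Nat.mul_le_mul_right _ h3).trans (Nat.le_mul_of_pos_right _ (by positivity))
      _ = _ := by unfold pv; ring
  exact_mod_cast this

theorem inst_no (hn : S_No) (hl : l ≠ []) (z : List ℤ)
    (h : d2 (inst C q l).1 (inst C q l).2.1 z < pW C q l) : Sat q l := by
  obtain ⟨h1, h2, h3⟩ := pp_spec (C := C) (q := q) hl
  have h4 := pJ_le (C := C) (q := q) hl
  have h5 := pX_le (C := C) (q := q) hl
  have h6 := pX_pos (q := q) (l := l)
  have h7 : q ≤ pX q l := by unfold pX; omega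
  obtain ⟨μ, h8, h9⟩ := sys_no (by unfold pW; positivity) z h
  exact hn q l (pp C q l) (pd l) (pJ C q l) (pw C q l ^ 2 * pX q l) (pw C q l ^ 2)
    (4 * (l.length * (q * q)) * pd l * pw C q l ^ 2 + 1) h1 hl (by omega) (by omega) (by omega)
    le_rfl (by omega) μ h8 (by unfold pW at h9; exact_mod_cast h9)

theorem inst_rank (hl : l ≠ []) :
    0 < (inst C q l).1.length ∧ (inst C q l).1.length ≤ pu q l * pw C q l ^ 4 := by
  obtain ⟨h1, h2, h3⟩ := pp_spec (C := C) (q := q) hl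
  have h4 := h1.pos
  have h5 : (inst C q l).1.length =
      (3 * (l.length * (q * q)) + l.length + 1) * (pp C q l * pp C q l) := by
    unfold inst BB
    rw [bs_length]
    ring
  rw [h5]
  refine ⟨by positivity, (Nat.mul_le_mul_left _ (Nat.mul_le_mul h3 h3)).trans_eq ?_⟩
  unfold pu
  ring

theorem pW_gt : pw C q l ^ 4 < pW C q l := by
  have := pX_pos (q := q) (l := l)
  unfold pW
  generalize pw C q l = w
  nlinarith [Nat.le_mul_of_pos_right (w ^ 4) this, Nat.zero_le (w ^ 2 * pX q l)]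

theorem gap (c : ℝ) (hc : c < 1 / 4) : ∃ C : ℕ, ∀ u v n : ℕ, 0 < u → 0 < v → 0 < n →
    n ≤ u * ((u * v) ^ C) ^ 4 →
      (n : ℝ) ^ c * ((v * (u * v) ^ C : ℕ) : ℝ) ≤ (((u * v) ^ C : ℕ) : ℝ) ^ 2 := by
  obtain ⟨b, h0, h1, h2⟩ : ∃ b : ℝ, 0 ≤ b ∧ c ≤ b ∧ b < 1 / 4 :=
    ⟨max c 0, le_max_right _ _, le_max_left _ _, max_lt hc (by norm_num)⟩
  obtain ⟨C, hC⟩ := exists_nat_ge (1 / (1 - 4 * b))
  rw [div_le_iff₀ (by linarith)] at hC
  refine ⟨C, fun u v n hu hv hn h => ?_⟩
  have hu' : (1 : ℝ) ≤ u := by exact_mod_cast hu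
  have hv' : (1 : ℝ) ≤ v := by exact_mod_cast hv
  have hn' : (1 : ℝ) ≤ n := by exact_mod_cast hn
  have h' : (n : ℝ) ≤ u * ((u * v) ^ C) ^ 4 := by exact_mod_cast h
  push_cast
  have hY : (1 : ℝ) ≤ u * v := one_le_mul_of_one_le_of_one_le hu' hv'
  have h3 : (u : ℝ) * v ≤ ((u * v) ^ C) ^ (1 - 4 * b) := by
    rw [← Real.rpow_natCast, ← Real.rpow_mul (by linarith)]
    exact Real.self_le_rpow_of_one_le hY hC
  have hw : (0 : ℝ) < (u * v) ^ C := by positivity
  generalize ((u : ℝ) * v) ^ C = w at h' h3 hw ⊢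
  have h4 : (n : ℝ) ^ c ≤ u * w ^ (4 * b) :=
    calc (n : ℝ) ^ c ≤ n ^ b := Real.rpow_le_rpow_of_exponent_le hn' h1
      _ ≤ (u * w ^ 4) ^ b := Real.rpow_le_rpow (by linarith) h' h0
      _ = u ^ b * w ^ (4 * b) := by
        rw [Real.mul_rpow (by linarith) (by positivity), Real.rpow_mul hw.le]
        norm_num
      _ ≤ _ := mul_le_mul_of_nonneg_right (Real.rpow_le_self_of_one_le hu' (by linarith))
        (by positivity)
  calc (n : ℝ) ^ c * (v * w) ≤ u * w ^ (4 * b) * (v * w) :=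
        mul_le_mul_of_nonneg_right h4 (by positivity)
    _ = u * v * (w ^ (4 * b) * w) := by ring
    _ ≤ w ^ (1 - 4 * b) * (w ^ (4 * b) * w) := mul_le_mul_of_nonneg_right h3 (by positivity)
    _ = w ^ 2 := by rw [← mul_assoc, ← Real.rpow_add hw]; simp [sq]

end Pool.Agent.P.MP_b0c4db_lc
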