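import Pool.Agent.P.MP_b0c4db_lc.Defs

/-! The system of congruences attached to a constraint satisfaction instance. -/

namespace Pool.Agent.P.MP_b0c4db_lc

open Finset

/-- `(c, a, c', b)` forbids giving `c` the value `a` and `c'` the value `b`. -/
abbrev Cn : Type := ℕ × ℕ × ℕ × ℕ

def Sat (q : ℕ) (l : List Cn) : Prop :=
  ∃ a : ℕ → ℕ, (∀ c, a c < q) ∧ ∀ f ∈ l, ¬ (a f.1 = f.2.1 ∧ a f.2.2.1 = f.2.2.2)

/-- the constraint to which the option `κ` belongs -/
def con (q : ℕ) (l : List Cn) (κ : ℕ) : Cn := l.getD (κ / (q * q)) (0, 0, 0, 0)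

/-- the two cells of an option -/
def pt (q : ℕ) (l : List Cn) (κ : ℕ) (b : Bool) : ℕ := cond b (con q l κ).1 (con q l κ).2.2.1

/-- the two values of an option -/
def vl (q κ : ℕ) (b : Bool) : ℕ := cond b (κ / q % q) (κ % q)

/-- the option is allowed -/
def ok (q : ℕ) (l : List Cn) (κ : ℕ) : Bool :=
  !(decide (vl q κ true = (con q l κ).2.1) && decide (vl q κ false = (con q l κ).2.2.2))

/-- the active moments -/
def act (p d J j e : ℕ) : Bool :=
  decide (j ≤ J) && (decide (p ≤ e + j) || decide (e + j + j * d + 1 < p))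

def ind (b : Bool) : ℤ := cond b 1 0

/-- coefficient of the unknown `(κ, t, y)` in the congruence `(k, j, e)` -/
def coef (q : ℕ) (l : List Cn) (p d J k j e κ t y : ℕ) : ℤ :=
  cond (decide (k < 2 * (l.length * (q * q))))
    (ind (decide (k / 2 = κ) && act p d J j e) *
      (((y : ℤ) - vl q κ (decide (k % 2 = 0))) ^ j * ((t : ℤ) - pt q l κ (decide (k % 2 = 0))) ^ e))
    (cond (decide (k < 2 * (l.length * (q * q)) + l.length))
      (ind (decide (t = j) && decide (y = e) && ok q l κ) *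
        (ind (decide (κ / (q * q) + 2 * (l.length * (q * q)) = k)) - ind (decide (κ / (q * q) = 0))))
      (ind (decide (t = j) && ok q l κ && decide (κ / (q * q) = 0))))

/-- right side of the congruence `(k, j, e)` -/
def rhs (q : ℕ) (l : List Cn) (k : ℕ) : ℤ := ind (decide (2 * (l.length * (q * q)) + l.length ≤ k))

/-- solutions of the system -/
def Sol (q : ℕ) (l : List Cn) (p d J : ℕ) (μ : ℕ → ℕ → ℕ → ℤ) : Prop :=
  ∀ k < 2 * (l.length * (q * q)) + l.length + 1, ∀ j < p, ∀ e < p,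
    (p : ℤ) ∣ ∑ κ ∈ range (l.length * (q * q)), ∑ t ∈ range p, ∑ y ∈ range p,
      coef q l p d J k j e κ t y * μ κ t y - rhs q l k

def nrm (A p : ℕ) (μ : ℕ → ℕ → ℕ → ℤ) : ℤ :=
  ∑ κ ∈ range A, ∑ t ∈ range p, ∑ y ∈ range p, μ κ t y ^ 2

/-- completeness -/
def S_Yes : Prop := ∀ (q : ℕ) (l : List Cn) (p d J : ℕ), p.Prime → l ≠ [] →
  (∀ f ∈ l, f.1 < d ∧ f.2.2.1 < d) → d ≤ p → J * (d + 1) + 1 < p → Sat q l →
  ∃ μ, Sol q l p d J μ ∧ nrm (l.length * (q * q)) p μ ≤ p * l.length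

/-- soundness -/
def S_No : Prop := ∀ (q : ℕ) (l : List Cn) (p d J D e a : ℕ), p.Prime → l ≠ [] → q ≤ p →
  0 < D → D + J * (d + 1) < p → a + 3 * e ≤ J → 4 * (l.length * (q * q)) * d * e < a →
  ∀ μ, Sol q l p d J μ → nrm (l.length * (q * q)) p μ < (D + 1) * (e + 1) → Sat q l

end Pool.Agent.P.MP_b0c4db_lc
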